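import Mathlib

set_option autoImplicit false

open Polynomial

namespace Pool.Agent.Results.MP_2d1f13_nt.NoUniformPreimages

/-! ### Definitions -/

/-- The field of algebraic numbers. -/
abbrev Qb : Type := AlgebraicClosure ℚ

/-- Vectors of homogeneous coordinates of points of projective `N`-space. -/
abbrev Vec (N : ℕ) : Type := Fin (N + 1) → Qb

/-- The algebraic points of projective `N`-space. -/
abbrev PSpace (N : ℕ) : Type := Projectivization Qb (Vec N)

/-- The field `ℚ(x)` of a point `x = [x_0 : ... : x_N]`, generated by the ratios `x_i / x_j`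
of its homogeneous coordinates. -/
noncomputable def fieldOfPoint {N : ℕ} (x : PSpace N) : IntermediateField ℚ Qb :=
  IntermediateField.adjoin ℚ {y | ∃ i j, x.rep j ≠ 0 ∧ y = x.rep i / x.rep j}

/-- The degree `[ℚ(x) : ℚ]` of a point of projective space. -/
noncomputable def degPoint {N : ℕ} (x : PSpace N) : ℕ := Module.finrank ℚ (fieldOfPoint x)

/-- The degree `[ℚ(t) : ℚ]` of an algebraic number, i.e. of an algebraic point of the affine
line. -/
noncomputable def degParam (t : Qb) : ℕ := Module.finrank ℚ (IntermediateField.adjoin ℚ {t})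

/-- Specialisation at `t` of a polynomial in `X_0, ..., X_N` with coefficients in `ℚ[t]`. -/
noncomputable def specialize {N : ℕ} (t : Qb) (G : MvPolynomial (Fin (N + 1)) ℚ[X]) :
    MvPolynomial (Fin (N + 1)) Qb :=
  MvPolynomial.map (Polynomial.aeval t : ℚ[X] →ₐ[ℚ] Qb).toRingHom G

/-- An algebraic family over the affine line `Λ = 𝔸¹`, defined over `ℚ`, of degree `d`
endomorphisms of projective `N`-space: `N + 1` forms of degree `d` with coefficients in `ℚ[t]`,
having no common zero other than the zero vector, for any algebraic value of `t`. -/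
structure Family (N d : ℕ) where
  /-- the forms -/
  form : Fin (N + 1) → MvPolynomial (Fin (N + 1)) ℚ[X]
  homogeneous : ∀ i, (form i).IsHomogeneous d
  noCommonZero : ∀ (t : Qb) (v : Vec N),
    (∀ i, MvPolynomial.eval v (specialize t (form i)) = 0) → v = 0

/-- A marked point of projective `N`-space over the affine line, defined over `ℚ`: a tuple of
`N + 1` polynomials in `t` without common zero. -/
structure MarkedPoint (N : ℕ) where
  /-- the homogeneous coordinates -/
  coord : Fin (N + 1) → ℚ[X]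
  noCommonZero : ∀ t : Qb, (fun i => Polynomial.aeval t (coord i)) ≠ 0

variable {N d : ℕ}

/-- The member `f_t` of the family, on homogeneous coordinates. -/
noncomputable def Family.lift (f : Family N d) (t : Qb) (v : Vec N) : Vec N :=
  fun i => MvPolynomial.eval v (specialize t (f.form i))

/-- The member `f_t` of the family, as a self-map of projective space. -/
noncomputable def Family.toMap (f : Family N d) (t : Qb) (x : PSpace N) : PSpace N :=
  Projectivization.mk Qb (f.lift t x.rep)
    (fun h => x.rep_nonzero (f.noCommonZero t x.rep (fun i => congrFun h i)))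

/-- The value `a_t` of the marked point. -/
noncomputable def MarkedPoint.at (a : MarkedPoint N) (t : Qb) : PSpace N :=
  Projectivization.mk Qb (fun i => Polynomial.aeval t (a.coord i)) (a.noCommonZero t)

/-- The members `f_s` and `f_t` are conjugate by an element of `PGL_{N+1}` over the algebraic
numbers, that is, they define the same point of the moduli space of degree `d` endomorphisms. -/
def Family.Conj (f : Family N d) (s t : Qb) : Prop :=
  ∃ φ : Vec N ≃ₗ[Qb] Vec N, ∀ x : PSpace N,
    f.toMap t (Projectivization.map φ.toLinearMap φ.injective x) =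
      Projectivization.map φ.toLinearMap φ.injective (f.toMap s x)

/-- The family is maximal varying: the map from the base to the moduli space is quasi-finite. -/
def Family.MaximalVarying (f : Family N d) : Prop := ∀ t : Qb, {s : Qb | f.Conj s t}.Finite

/-- `Preim(f_t, a_t, D)`: the points of degree at most `D` that some iterate of `f_t` maps
to `a_t`. -/
def preim (f : Family N d) (a : MarkedPoint N) (t : Qb) (D : ℕ) : Set (PSpace N) :=
  {x | degPoint x ≤ D ∧ ∃ n : ℕ, (f.toMap t)^[n] x = a.at t}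

/-- Zariski-closed subsets of `𝔸¹ × ℙ^N`, over the algebraic numbers: the sets of common zeros
of polynomials in `t, X_0, ..., X_N` that are homogeneous in `X_0, ..., X_N`. -/
def ZariskiClosed (V : Set (Qb × PSpace N)) : Prop :=
  ∃ S : Set (MvPolynomial (Fin (N + 1)) Qb[X]),
    (∀ H ∈ S, ∃ e : ℕ, H.IsHomogeneous e) ∧
    V = {p | ∀ H ∈ S, MvPolynomial.eval p.2.rep (MvPolynomial.map (Polynomial.evalRingHom p.1) H)
      = 0}

/-- The property `(∗)`: outside some proper Zariski-closed subset `V` of `𝔸¹ × ℙ^N` (required to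
be empty if `N = 1`), for each `D ≥ 1` the number of iterated preimages of `a_t` under `f_t` of
degree at most `D` is bounded by a constant, for all `t` of degree at most `D`. -/
def Star (f : Family N d) (a : MarkedPoint N) : Prop :=
  ∃ V : Set (Qb × PSpace N), ZariskiClosed V ∧ V ≠ Set.univ ∧ (N = 1 → V = ∅) ∧
    ∀ D : ℕ, 1 ≤ D → ∃ C : ℕ, ∀ t : Qb, degParam t ≤ D →
      {x | x ∈ preim f a t D ∧ (t, x) ∉ V}.encard ≤ C

/-! ### General lemmas -/

lemma eval_smul_of_homogeneous {G : MvPolynomial (Fin (N + 1)) Qb} {e : ℕ} (h : G.IsHomogeneous e)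
    (c : Qb) (v : Vec N) :
    MvPolynomial.eval (c • v) G = c ^ e * MvPolynomial.eval v G := by
  rw [MvPolynomial.eval_eq, MvPolynomial.eval_eq, Finset.mul_sum]
  refine Finset.sum_congr rfl fun m hm => ?_
  have hdeg : m.degree = e := by
    have := h (MvPolynomial.mem_support_iff.1 hm)
    rw [Finsupp.degree_eq_weight_one]
    exact this
  have : ∏ i ∈ m.support, (c • v) i ^ m i = c ^ e * ∏ i ∈ m.support, v i ^ m i := by
    simp only [Pi.smul_apply, smul_eq_mul, mul_pow, Finset.prod_mul_distrib]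
    rw [Finset.prod_pow_eq_pow_sum]
    congr 2
  rw [this]; ring

lemma lift_smul (f : Family N d) (t c : Qb) (v : Vec N) :
    f.lift t (c • v) = c ^ d • f.lift t v := by
  funext i
  exact eval_smul_of_homogeneous ((f.homogeneous i).map _) c v

lemma lift_ne_zero (f : Family N d) (t : Qb) {v : Vec N} (hv : v ≠ 0) : f.lift t v ≠ 0 :=
  fun h => hv (f.noCommonZero t v (fun i => congrFun h i))

lemma toMap_mk (f : Family N d) (t : Qb) {v : Vec N} (hv : v ≠ 0) :
    f.toMap t (Projectivization.mk Qb v hv) =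
      Projectivization.mk Qb (f.lift t v) (lift_ne_zero f t hv) := by
  obtain ⟨a, ha⟩ := Projectivization.exists_smul_eq_mk_rep Qb v hv
  rw [Family.toMap, Projectivization.mk_eq_mk_iff']
  refine ⟨(a : Qb) ^ d, ?_⟩
  rw [← lift_smul, ← ha]
  rfl


lemma iterate_mk (f : Family N d) (t : Qb) (n : ℕ) {v : Vec N} (hv : v ≠ 0) :
    ∃ h : (f.lift t)^[n] v ≠ 0, (f.toMap t)^[n] (Projectivization.mk Qb v hv) =
      Projectivization.mk Qb ((f.lift t)^[n] v) h := by
  induction n with
  | zero => exact ⟨hv, rfl⟩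
  | succ n ih =>
    obtain ⟨h, e⟩ := ih
    have h' : (f.lift t)^[n + 1] v = f.lift t ((f.lift t)^[n] v) :=
      Function.iterate_succ_apply' _ _ _
    refine ⟨h' ▸ lift_ne_zero f t h, ?_⟩
    rw [Function.iterate_succ_apply', e, toMap_mk]
    congr 1
    exact h'.symm

/-! ### The family -/

/-- The `i`-th form: `X_1^d + (t - t^d) X_0^d` if `i = 1`, and `X_i^d` otherwise. -/
noncomputable def theForm (M d : ℕ) (i : Fin (M + 2 + 1)) : MvPolynomial (Fin (M + 2 + 1)) ℚ[X] :=
  if i = 1 then MvPolynomial.X 1 ^ d + MvPolynomial.C (X - X ^ d) * MvPolynomial.X 0 ^ d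
  else MvPolynomial.X i ^ d

/-- The constant `t - t^d`. -/
noncomputable def kap (d : ℕ) (t : Qb) : Qb := t - t ^ d

lemma eval_theForm (M d : ℕ) (t : Qb) (v : Vec (M + 2)) (i : Fin (M + 2 + 1)) :
    MvPolynomial.eval v (specialize t (theForm M d i)) =
      if i = 1 then v 1 ^ d + kap d t * v 0 ^ d else v i ^ d := by
  unfold theForm specialize kap
  split_ifs with h
  · simp
  · simp

/-- The family. -/
noncomputable def theFamily (M d : ℕ) (hd : 2 ≤ d) : Family (M + 2) d where
  form := theForm M d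
  homogeneous := by
    intro i
    unfold theForm
    split_ifs with h
    · refine MvPolynomial.IsHomogeneous.add ?_ ?_
      · simpa using (MvPolynomial.isHomogeneous_X (R := ℚ[X]) (1 : Fin (M + 2 + 1))).pow d
      · have h1 := MvPolynomial.isHomogeneous_C (R := ℚ[X]) (Fin (M + 2 + 1)) (X - X ^ d : ℚ[X])
        have h2 := (MvPolynomial.isHomogeneous_X (R := ℚ[X]) (0 : Fin (M + 2 + 1))).pow d
        simpa using h1.mul h2
    · simpa using (MvPolynomial.isHomogeneous_X (R := ℚ[X]) i).pow d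
  noCommonZero := by
    intro t v h
    have hd0 : d ≠ 0 := by omega
    have h1 : ∀ i, i ≠ 1 → v i = 0 := by
      intro i hi
      have := h i
      rw [eval_theForm, if_neg hi] at this
      exact pow_eq_zero_iff hd0 |>.1 this
    have h0 : v 0 = 0 := h1 0 (by simp)
    funext i
    by_cases hi : i = 1
    · have := h 1
      rw [eval_theForm, if_pos rfl, h0, zero_pow hd0, mul_zero, add_zero] at this
      rw [hi]
      exact pow_eq_zero_iff hd0 |>.1 this
    · exact h1 i hi

/-- The marked point `[1 : t : ... : t]`. -/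
noncomputable def thePoint (M : ℕ) : MarkedPoint (M + 2) where
  coord := fun i => if i = 0 then 1 else X
  noCommonZero := by
    intro t h
    have := congrFun h 0
    simp at this

lemma lift_apply (M d : ℕ) (hd : 2 ≤ d) (t : Qb) (v : Vec (M + 2)) (i : Fin (M + 2 + 1)) :
    (theFamily M d hd).lift t v i = if i = 1 then v 1 ^ d + kap d t * v 0 ^ d else v i ^ d :=
  eval_theForm M d t v i

/-- The one-variable map `z ↦ z^d + (t - t^d)`, of which `t` is a fixed point. -/
noncomputable def gm (d : ℕ) (t z : Qb) : Qb := z ^ d + kap d t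

lemma gm_fix (d : ℕ) (t : Qb) : gm d t t = t := by unfold gm kap; ring

lemma gm_iter_fix (d : ℕ) (t : Qb) (k : ℕ) : (gm d t)^[k] t = t :=
  Function.iterate_fixed (gm_fix d t) k

lemma lift_iter (M d : ℕ) (hd : 2 ≤ d) (t : Qb) (v : Vec (M + 2)) (h0 : v 0 = 1) (k : ℕ) :
    ((theFamily M d hd).lift t)^[k] v = fun i => if i = 1 then (gm d t)^[k] (v 1) else
      v i ^ (d ^ k) := by
  induction k with
  | zero =>
    funext i
    simp only [Function.iterate_zero, id_eq, pow_zero, pow_one]
    split_ifs with h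
    · rw [h]
    · rfl
  | succ k ih =>
    rw [Function.iterate_succ_apply', ih]
    funext i
    rw [lift_apply]
    by_cases h : i = 1
    · rw [if_pos h, if_pos h, if_pos rfl, if_neg (by simp), h0, Function.iterate_succ_apply']
      simp [gm]
    · rw [if_neg h, if_neg h, if_neg h, ← pow_mul, ← pow_succ]


/-! ### The family is maximal varying -/

lemma exists_omega (hd : 2 ≤ d) : ∃ ω : Qb, ω ≠ 1 ∧ ω ^ d = 1 := by
  have : NeZero ((d : ℕ) : Qb) := ⟨by
    have : (d : Qb) ≠ 0 := Nat.cast_ne_zero.2 (by omega)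
    exact this⟩
  obtain ⟨ω, hω⟩ := HasEnoughRootsOfUnity.exists_primitiveRoot Qb d
  exact ⟨ω, hω.ne_one (by omega), hω.pow_eq_one⟩

lemma aux_zero (hd : 2 ≤ d) {a b P Q : Qb} (hb : b ≠ 0)
    (h : ∀ y : Qb, (a + y * b) ^ d = P + Q * y ^ d) : a = 0 := by
  obtain ⟨ω, h1, h2⟩ := exists_omega hd
  have e1 := h (-a / b)
  have e2 := h (ω * (-a / b))
  have e3 : a + -a / b * b = 0 := by field_simp; ring
  rw [e3, zero_pow (by omega)] at e1
  rw [mul_pow, h2, one_mul, ← e1] at e2
  have e4 : a + ω * (-a / b) * b = a * (1 - ω) := by field_simp; ring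
  rw [e4] at e2
  have e5 := pow_eq_zero_iff (by omega : d ≠ 0) |>.1 e2
  rcases mul_eq_zero.1 e5 with h | h
  · exact h
  · exact absurd (sub_eq_zero.1 h).symm h1

lemma conj_rel {f : Family N d} {s t : Qb} {φ : Vec N ≃ₗ[Qb] Vec N}
    (h : ∀ x : PSpace N, f.toMap t (Projectivization.map φ.toLinearMap φ.injective x) =
      Projectivization.map φ.toLinearMap φ.injective (f.toMap s x)) {v : Vec N} (hv : v ≠ 0) :
    ∃ c : Qb, c ≠ 0 ∧ f.lift t (φ v) = c • φ (f.lift s v) := by
  have h1 := h (Projectivization.mk Qb v hv)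
  rw [toMap_mk, Projectivization.map_mk, Projectivization.map_mk, toMap_mk,
    Projectivization.mk_eq_mk_iff] at h1
  obtain ⟨a, ha⟩ := h1
  exact ⟨a, a.ne_zero, ha.symm⟩

/-- Standard basis vectors. -/
noncomputable def bv (N : ℕ) (j : Fin (N + 1)) : Vec N := Pi.single j 1

lemma pair_apply (j k : Fin (N + 1)) (hjk : j ≠ k) (x y : Qb) (l : Fin (N + 1)) :
    (x • bv N j + y • bv N k) l = if l = j then x else if l = k then y else 0 := by
  unfold bv
  simp only [Pi.add_apply, Pi.smul_apply, smul_eq_mul, Pi.single_apply]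
  by_cases h1 : l = j
  · subst h1; simp [hjk]
  · by_cases h2 : l = k
    · subst h2; simp [h1]
    · simp [h1, h2]

lemma lift_pair (M d : ℕ) (hd : 2 ≤ d) (s : Qb) (j k : Fin (M + 2 + 1)) (hjk : j ≠ k) (hk : k ≠ 0)
    (x y : Qb) :
    (theFamily M d hd).lift s (x • bv (M + 2) j + y • bv (M + 2) k) =
      (x ^ d • bv (M + 2) j + y ^ d • bv (M + 2) k) +
        (if j = 0 then kap d s * x ^ d else 0) • bv (M + 2) 1 := by
  funext l
  have hd0 : d ≠ 0 := by omega
  rw [lift_apply, pair_apply _ _ hjk x y 1, pair_apply _ _ hjk x y 0, pair_apply _ _ hjk x y l,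
    Pi.add_apply, pair_apply _ _ hjk (x ^ d) (y ^ d) l]
  have e0 : (if (0 : Fin (M + 2 + 1)) = j then x else if (0 : Fin (M + 2 + 1)) = k then y else 0)
      = if j = 0 then x else 0 := by
    by_cases h : j = 0
    · simp [h]
    · rw [if_neg (fun h' => h h'.symm), if_neg (fun h' => hk h'.symm), if_neg h]
  rw [e0]
  by_cases hl : l = 1
  · rw [if_pos hl, hl]
    unfold bv
    simp only [Pi.smul_apply, Pi.single_eq_same, smul_eq_mul, mul_one]
    congr 1
    · by_cases h1 : (1 : Fin (M + 2 + 1)) = j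
      · rw [if_pos h1, if_pos h1]
      · rw [if_neg h1, if_neg h1]
        by_cases h2 : (1 : Fin (M + 2 + 1)) = k
        · rw [if_pos h2, if_pos h2]
        · rw [if_neg h2, if_neg h2, zero_pow hd0]
    · by_cases h : j = 0
      · rw [if_pos h, if_pos h]
      · rw [if_neg h, if_neg h, zero_pow hd0, mul_zero]
  · rw [if_neg hl]
    unfold bv
    have : ((Pi.single 1 1 : Vec (M + 2))) l = 0 := by
      rw [Pi.single_apply, if_neg hl]
    rw [Pi.smul_apply, this, smul_zero, add_zero]
    by_cases h1 : l = j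
    · rw [if_pos h1, if_pos h1]
    · rw [if_neg h1, if_neg h1]
      by_cases h2 : l = k
      · rw [if_pos h2, if_pos h2]
      · rw [if_neg h2, if_neg h2, zero_pow hd0]

lemma pair_ne_zero (j k : Fin (N + 1)) (hjk : j ≠ k) {x : Qb} (hx : x ≠ 0) (y : Qb) :
    x • bv N j + y • bv N k ≠ 0 := by
  intro h
  have := congrFun h j
  rw [pair_apply _ _ hjk, if_pos rfl] at this
  exact hx this

lemma conj_kap (M d : ℕ) (hd : 2 ≤ d) (s t : Qb) (h : (theFamily M d hd).Conj s t)
    (hs : kap d s ≠ 0) : kap d s ^ (d - 1) = kap d t ^ (d - 1) := by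
  obtain ⟨φ, hφ⟩ := h
  have hd0 : d ≠ 0 := by omega
  set f := theFamily M d hd with hf
  -- the matrix of `φ`
  set A : Fin (M + 2 + 1) → Fin (M + 2 + 1) → Qb := fun i j => φ (bv (M + 2) j) i with hA
  have hφp : ∀ (j k i : Fin (M + 2 + 1)) (x y : Qb),
      φ (x • bv (M + 2) j + y • bv (M + 2) k) i = x * A i j + y * A i k := by
    intro j k i x y
    simp [hA, map_add, map_smul]
  have hφt : ∀ (j k i : Fin (M + 2 + 1)) (x y z : Qb),
      φ ((x • bv (M + 2) j + y • bv (M + 2) k) + z • bv (M + 2) 1) i =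
        x * A i j + y * A i k + z * A i 1 := by
    intro j k i x y z
    simp [hA, map_add, map_smul]
  obtain ⟨ω, hω1, hω2⟩ := exists_omega hd
  -- the relation for vectors supported on two coordinates
  have key : ∀ (j k : Fin (M + 2 + 1)), j ≠ k → k ≠ 0 → ∀ x y : Qb, x ≠ 0 →
      ∃ c : Qb, c ≠ 0 ∧
        (∀ i, i ≠ 1 → (x * A i j + y * A i k) ^ d =
          c * (x ^ d * A i j + y ^ d * A i k +
            (if j = 0 then kap d s * x ^ d else 0) * A i 1)) ∧
        (x * A 1 j + y * A 1 k) ^ d + kap d t * (x * A 0 j + y * A 0 k) ^ d =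
          c * (x ^ d * A 1 j + y ^ d * A 1 k +
            (if j = 0 then kap d s * x ^ d else 0) * A 1 1) := by
    intro j k hjk hk x y hx
    obtain ⟨c, hc, e⟩ := conj_rel hφ (pair_ne_zero j k hjk hx y)
    rw [hf, lift_pair M d hd s j k hjk hk] at e
    refine ⟨c, hc, ?_, ?_⟩
    · intro i hi
      have e1 := congrFun e i
      rw [lift_apply, if_neg hi, Pi.smul_apply, smul_eq_mul, hφp, hφt] at e1
      exact e1
    · have e1 := congrFun e 1
      rw [lift_apply, if_pos rfl, Pi.smul_apply, smul_eq_mul, hφp, hφp, hφt] at e1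
      exact e1
  -- each row other than the row `1` has at most one nonzero entry
  have R1' : ∀ i, i ≠ 1 → ∀ j k, j ≠ k → k ≠ 0 → A i j ≠ 0 → A i k ≠ 0 → False := by
    intro i hi j k hjk hk hj hk'
    set y0 : Qb := -A i j / A i k with hy0
    have hy0' : y0 ≠ 0 := div_ne_zero (neg_ne_zero.2 hj) hk'
    obtain ⟨c, hc, e, -⟩ := key j k hjk hk 1 y0 one_ne_zero
    obtain ⟨c', hc', e', -⟩ := key j k hjk hk 1 (ω * y0) one_ne_zero
    have e1 := e i hi
    have e2 := e' i hi
    have e3 : 1 * A i j + y0 * A i k = 0 := by rw [hy0]; field_simp; ring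
    rw [e3, zero_pow hd0] at e1
    have e4 := (mul_eq_zero.1 e1.symm).resolve_left hc
    rw [mul_pow, hω2, one_mul (y0 ^ d), e4, mul_zero] at e2
    have e5 := pow_eq_zero_iff hd0 |>.1 e2
    have e6 : (ω - 1) * (y0 * A i k) = 0 := by linear_combination e5 - e3
    rcases mul_eq_zero.1 e6 with h | h
    · exact hω1 (sub_eq_zero.1 h)
    · exact (mul_ne_zero hy0' hk') h
  have R1 : ∀ i, i ≠ 1 → ∀ j k, j ≠ k → A i j ≠ 0 → A i k = 0 := by
    intro i hi j k hjk hj
    by_contra hk
    by_cases h0 : k = 0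
    · exact R1' i hi k j hjk.symm (fun h => hjk (h.trans h0.symm)) hk hj
    · exact R1' i hi j k hjk h0 hj hk
  have h01 : (0 : Fin (M + 2 + 1)) ≠ 1 := by simp
  -- column `1` vanishes outside the row `1`
  have R3 : ∀ i, i ≠ 1 → A i 1 = 0 := by
    intro i hi
    by_contra h
    have h0 := R1 i hi 1 0 h01.symm h
    obtain ⟨c, hc, e, -⟩ := key 0 1 h01 h01.symm 1 0 one_ne_zero
    have e1 := e i hi
    rw [h0, if_pos rfl, zero_pow hd0] at e1
    simp only [mul_zero, zero_mul, add_zero, one_pow, mul_one, zero_add, zero_pow hd0] at e1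
    exact (mul_ne_zero hc (mul_ne_zero hs h)) e1.symm
  -- linear combinations
  have hsum : ∀ v : Vec (M + 2), ∀ i, φ v i = ∑ j, v j * A i j := by
    intro v i
    have : v = ∑ j, v j • bv (M + 2) j := by
      funext l
      simp [bv, Finset.sum_apply, Pi.single_apply]
    conv_lhs => rw [this]
    simp [map_sum, map_smul, hA, Finset.sum_apply]
  have R2 : ∀ i, ∃ j, A i j ≠ 0 := by
    intro i
    by_contra hcon
    push Not at hcon
    obtain ⟨v, hv⟩ := φ.surjective (bv (M + 2) i)
    have := congrFun hv i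
    rw [hsum] at this
    simp [hcon, bv] at this
  have R4 : A 1 1 ≠ 0 := by
    intro h
    have h1 : φ (bv (M + 2) 1) = 0 := by
      funext i
      by_cases hi : i = 1
      · rw [hi]; exact h
      · exact R3 i hi
    have h2 := φ.injective (h1.trans (map_zero φ).symm)
    have := congrFun h2 1
    simp [bv] at this
  obtain ⟨i0, hi0, hi0'⟩ : ∃ i, i ≠ 1 ∧ A i 0 ≠ 0 := by
    by_contra hcon
    push Not at hcon
    have h1 : φ (A 1 1 • bv (M + 2) 0 + (-A 1 0) • bv (M + 2) 1) = 0 := by
      funext i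
      rw [hφp]
      by_cases hi : i = 1
      · rw [hi]; simp; ring
      · rw [hcon i hi, R3 i hi]; simp
    have h2 := φ.injective (h1.trans (map_zero φ).symm)
    exact pair_ne_zero 0 1 h01 R4 _ h2
  obtain ⟨p, hp⟩ := R2 0
  have hp1 : p ≠ 1 := by
    rintro rfl
    exact hp (R3 0 h01)
  have hdd : ∀ x : Qb, x ^ d = x ^ (d - 1) * x := fun x => by
    rw [← pow_succ]; congr 1; omega
  -- the constant
  have hc1 : ∀ y : Qb, ∀ c : Qb, (1 * A 0 p + y * A 0 1) ^ d =
      c * (1 ^ d * A 0 p + y ^ d * A 0 1 +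
            (if p = 0 then kap d s * 1 ^ d else 0) * A 0 1) → c = A 0 p ^ (d - 1) := by
    intro y c e
    rw [R3 0 h01] at e
    simp only [mul_zero, add_zero, one_mul, one_pow] at e
    rw [hdd] at e
    exact (mul_right_cancel₀ hp e).symm
  have hc2 : ∀ y : Qb, ∀ c : Qb, (1 * A i0 0 + y * A i0 1) ^ d =
      c * (1 ^ d * A i0 0 + y ^ d * A i0 1 +
            (if (0 : Fin (M + 2 + 1)) = 0 then kap d s * 1 ^ d else 0) * A i0 1) →
      c = A i0 0 ^ (d - 1) := by
    intro y c e
    rw [R3 i0 hi0] at e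
    simp only [mul_zero, add_zero, one_mul, one_pow] at e
    rw [hdd] at e
    exact (mul_right_cancel₀ hi0' e).symm
  -- coordinate 1 with `e_p + y e_1`
  have K1 : ∀ y : Qb, (A 1 p + y * A 1 1) ^ d + kap d t * A 0 p ^ d =
      A 0 p ^ (d - 1) * (A 1 p + y ^ d * A 1 1 + (if p = 0 then kap d s else 0) * A 1 1) := by
    intro y
    obtain ⟨c, hc, e, e'⟩ := key p 1 hp1 h01.symm 1 y one_ne_zero
    rw [← hc1 y c (e 0 h01), R3 0 h01] at *
    simpa using e'
  have hA1p : A 1 p = 0 := by
    refine aux_zero hd R4 (P := A 0 p ^ (d - 1) * (A 1 p + (if p = 0 then kap d s else 0) * A 1 1)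
      - kap d t * A 0 p ^ d) (Q := A 0 p ^ (d - 1) * A 1 1) fun y => ?_
    linear_combination K1 y
  have k0 := K1 0
  have k1 := K1 1
  rw [hA1p] at k0 k1
  simp only [zero_mul, zero_pow hd0, zero_add, one_pow, one_mul] at k0 k1
  have hAA : A 1 1 ^ (d - 1) = A 0 p ^ (d - 1) := by
    have : A 1 1 ^ (d - 1) * A 1 1 = A 0 p ^ (d - 1) * A 1 1 := by
      rw [← hdd]; linear_combination k1 - k0
    exact mul_right_cancel₀ R4 this
  by_cases hp0 : p = 0
  · rw [if_pos hp0] at k0
    have e1 : kap d t * A 0 p = kap d s * A 1 1 := by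
      have : A 0 p ^ (d - 1) * (kap d t * A 0 p) = A 0 p ^ (d - 1) * (kap d s * A 1 1) := by
        rw [← k0, hdd (A 0 p)]; ring
      exact mul_left_cancel₀ (pow_ne_zero _ hp) this
    have e2 := congrArg (fun x => x ^ (d - 1)) e1
    simp only [mul_pow] at e2
    rw [hAA] at e2
    exact (mul_right_cancel₀ (pow_ne_zero _ hp) e2).symm
  · exfalso
    rw [if_neg hp0, zero_mul, mul_zero] at k0
    have hkt : kap d t = 0 := (mul_eq_zero.1 k0).resolve_right (pow_ne_zero _ hp)
    have K2 : ∀ y : Qb, (A 1 0 + y * A 1 1) ^ d =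
        A i0 0 ^ (d - 1) * (A 1 0 + y ^ d * A 1 1 + kap d s * A 1 1) := by
      intro y
      obtain ⟨c, hc, e, e'⟩ := key 0 1 h01 h01.symm 1 y one_ne_zero
      rw [← hc2 y c (e i0 hi0)] at *
      rw [hkt] at e'
      simpa using e'
    have hA10 : A 1 0 = 0 := by
      refine aux_zero hd R4 (P := A i0 0 ^ (d - 1) * (A 1 0 + kap d s * A 1 1))
        (Q := A i0 0 ^ (d - 1) * A 1 1) fun y => ?_
      linear_combination K2 y
    have k2 := K2 0
    rw [hA10] at k2
    simp only [zero_mul, zero_pow hd0, zero_add] at k2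
    exact (mul_ne_zero (pow_ne_zero _ hi0') (mul_ne_zero hs R4)) k2.symm

lemma maximalVarying (M d : ℕ) (hd : 2 ≤ d) : (theFamily M d hd).MaximalVarying := by
  intro t
  have h1 : (X - X ^ d : Qb[X]) ≠ 0 := by
    intro h
    have := congrArg (fun q => q.coeff 1) h
    simp only [coeff_sub, coeff_X_one, coeff_X_pow, coeff_zero] at this
    rw [if_neg (by omega)] at this
    simp at this
  have hdeg : (X - X ^ d : Qb[X]).natDegree = d := by
    rw [natDegree_sub_eq_right_of_natDegree_lt]
    · simp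
    · simp; omega
  have h2 : ((X - X ^ d) ^ (d - 1) - C (kap d t ^ (d - 1)) : Qb[X]) ≠ 0 := by
    intro h
    have h3 := congrArg natDegree (sub_eq_zero.1 h)
    rw [natDegree_pow, hdeg, natDegree_C] at h3
    have : 0 < (d - 1) * d := Nat.mul_pos (by omega) (by omega)
    omega
  refine ((finite_setOfPred_isRoot h1).union (finite_setOfPred_isRoot h2)).subset ?_
  intro s hs
  by_cases h : kap d s = 0
  · left
    simpa [IsRoot, kap] using h
  · right
    have := conj_kap M d hd s t hs h
    simp only [Set.mem_ofPred_eq, IsRoot, eval_sub, eval_pow, eval_X, eval_C]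
    rw [← this]
    simp [kap]


/-! ### Backward orbits in one variable -/

lemma exists_back (d : ℕ) (hd : 2 ≤ d) (t : Qb) (ht : t ≠ 0) :
    ∃ z : ℕ → Qb, (∀ j, (gm d t)^[j] (z j) = t) ∧ Function.Injective z := by
  obtain ⟨ω, hω1, hω2⟩ := exists_omega hd
  have hsurj : ∀ w : Qb, ∃ u : Qb, gm d t u = w := by
    intro w
    obtain ⟨u, hu⟩ := IsAlgClosed.exists_pow_nat_eq (w - kap d t) (show 0 < d by omega)
    exact ⟨u, by unfold gm; rw [hu]; ring⟩
  choose pre hpre using hsurj
  have hω : gm d t (ω * t) = t := by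
    unfold gm kap
    rw [mul_pow, hω2]; ring
  have hne : ω * t ≠ t := by
    intro h
    have : (ω - 1) * t = 0 := by linear_combination h
    rcases mul_eq_zero.1 this with h | h
    · exact hω1 (sub_eq_zero.1 h)
    · exact ht h
  have hit : ∀ j, (gm d t)^[j] (pre^[j] (ω * t)) = ω * t := fun j =>
    Function.LeftInverse.iterate (show Function.LeftInverse (gm d t) pre from hpre) j _
  refine ⟨fun j => match j with
    | 0 => t
    | j + 1 => pre^[j] (ω * t), ?_, ?_⟩
  · intro j
    match j with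
    | 0 => rfl
    | j + 1 =>
      show (gm d t)^[j + 1] (pre^[j] (ω * t)) = t
      rw [Function.iterate_succ_apply', hit, hω]
  · have hlt : ∀ i j : ℕ, i < j → (match i with
        | 0 => t
        | i + 1 => pre^[i] (ω * t)) ≠ (match j with
        | 0 => t
        | j + 1 => pre^[j] (ω * t)) := by
      intro i j hij h
      obtain ⟨j, rfl⟩ : ∃ j', j = j' + 1 := ⟨j - 1, by omega⟩
      simp only at h
      have h1 := congrArg (gm d t)^[j] h
      rw [hit] at h1
      match i, hij with
      | 0, _ =>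
        simp only [gm_iter_fix] at h1
        exact hne h1.symm
      | i + 1, hij =>
        simp only at h1
        have e : j = (j - (i + 1)) + 1 + i := by omega
        rw [e, Function.iterate_add_apply, hit, Function.iterate_succ_apply, hω, gm_iter_fix] at h1
        exact hne h1.symm
    intro i j h
    rcases lt_trichotomy i j with hij | hij | hij
    · exact absurd h (hlt i j hij)
    · exact hij
    · exact absurd h.symm (hlt j i hij)

/-- The polynomials `g_t^j(X)` over `ℚ`. -/
noncomputable def pp (d : ℕ) (q : ℚ) : ℕ → ℚ[X]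
  | 0 => X
  | j + 1 => (pp d q j) ^ d + C (q - q ^ d)

lemma pp_aeval (d : ℕ) (q : ℚ) (w : Qb) (j : ℕ) :
    aeval w (pp d q j) = (gm d (algebraMap ℚ Qb q))^[j] w := by
  induction j with
  | zero => simp [pp]
  | succ j ih =>
    rw [Function.iterate_succ_apply', ← ih, pp, gm, kap]
    simp only [map_add, map_pow, aeval_C, map_sub]

lemma isInt (x : Qb) : IsIntegral ℚ x :=
  ((AlgebraicClosure.isAlgebraic ℚ).isAlgebraic x).isIntegral

lemma pp_natDegree (d : ℕ) (q : ℚ) (j : ℕ) : (pp d q j).natDegree = d ^ j := by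
  induction j with
  | zero => simp [pp]
  | succ j ih => rw [pp, natDegree_add_C, natDegree_pow, ih, pow_succ, mul_comm]

lemma finrank_back (d : ℕ) (hd : 2 ≤ d) (q : ℚ) (w : Qb) (m : ℕ)
    (h : (gm d (algebraMap ℚ Qb q))^[m] w = algebraMap ℚ Qb q) :
    Module.finrank ℚ (IntermediateField.adjoin ℚ {w}) ≤ d ^ m := by
  have hint : IsIntegral ℚ w := isInt w
  rw [IntermediateField.adjoin.finrank hint]
  have hdeg : (pp d q m - C q).natDegree = d ^ m := by
    rw [natDegree_sub_C, pp_natDegree]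
  have hne : pp d q m - C q ≠ 0 := by
    intro h0
    rw [h0, natDegree_zero] at hdeg
    have : 0 < d ^ m := pow_pos (by omega) m
    omega
  rw [← hdeg]
  apply natDegree_le_natDegree
  apply minpoly.degree_le_of_ne_zero ℚ w hne
  rw [map_sub, pp_aeval, h, aeval_C, sub_self]

/-! ### The degree of a point -/

lemma degPoint_le {v : Vec N} (hv : v ≠ 0) (E : IntermediateField ℚ Qb) [FiniteDimensional ℚ E]
    (h : ∀ i, v i ∈ E) : degPoint (Projectivization.mk Qb v hv) ≤ Module.finrank ℚ E := by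
  apply IntermediateField.finrank_le_of_le_right
  unfold fieldOfPoint
  rw [IntermediateField.adjoin_le_iff]
  rintro y ⟨i, j, hj, rfl⟩
  obtain ⟨a, ha⟩ := Projectivization.exists_smul_eq_mk_rep Qb v hv
  rw [← ha]
  have : (a • v) i / (a • v) j = v i / v j := by
    rw [Pi.smul_apply, Pi.smul_apply, Units.smul_def, Units.smul_def, smul_eq_mul, smul_eq_mul,
      mul_div_mul_left _ _ a.ne_zero]
  rw [this]
  exact div_mem (h i) (h j)

/-- The field generated by the `d^m`-th roots of unity. -/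
noncomputable def cycl (n : ℕ) : IntermediateField ℚ Qb :=
  IntermediateField.adjoin ℚ (nthRootsFinset n (1 : Qb) : Set Qb)

instance (n : ℕ) : FiniteDimensional ℚ (cycl n) :=
  IntermediateField.finiteDimensional_adjoin fun _ _ => isInt _

/-! ### Unboundedness -/

/-- The parameters `2^(d^n)`. -/
noncomputable def par (d n : ℕ) : Qb := algebraMap ℚ Qb (2 ^ (d ^ n))

lemma par_eq (d n : ℕ) : par d n = 2 ^ (d ^ n) := by
  unfold par; simp

lemma par_inj {d : ℕ} (hd : 2 ≤ d) : Function.Injective (par d) := by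
  intro a b h
  rw [par_eq, par_eq] at h
  have h1 : ((2 ^ (d ^ a) : ℕ) : Qb) = ((2 ^ (d ^ b) : ℕ) : Qb) := by push_cast; exact h
  have h2 := Nat.cast_injective h1
  exact Nat.pow_right_injective hd (Nat.pow_right_injective le_rfl h2)

lemma two_pow_inj {a b : ℕ} (h : (2 : Qb) ^ a = 2 ^ b) : a = b := by
  have h1 : ((2 ^ a : ℕ) : Qb) = ((2 ^ b : ℕ) : Qb) := by push_cast; exact h
  exact Nat.pow_right_injective le_rfl (Nat.cast_injective h1)

lemma degParam_par (d n : ℕ) : degParam (par d n) = 1 := by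
  unfold degParam par
  rw [IntermediateField.adjoin_simple_eq_bot_iff.2 (IntermediateField.algebraMap_mem _ _)]
  exact IntermediateField.finrank_bot

/-- Dehomogenisation with respect to `X_0`. -/
noncomputable def dehom {M : ℕ} (H : MvPolynomial (Fin (M + 2 + 1)) Qb[X]) :
    MvPolynomial (Fin (M + 2)) Qb[X] :=
  MvPolynomial.bind₁ (Fin.cons 1 MvPolynomial.X : Fin (M + 2 + 1) → MvPolynomial (Fin (M + 2)) Qb[X]) H

lemma eval_dehom {M : ℕ} (H : MvPolynomial (Fin (M + 2 + 1)) Qb[X]) (t : Qb) (s : Fin (M + 2) → Qb) :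
    MvPolynomial.eval s (MvPolynomial.map (Polynomial.evalRingHom t) (dehom H)) =
      MvPolynomial.eval (Fin.cons 1 s : Vec (M + 2))
        (MvPolynomial.map (Polynomial.evalRingHom t) H) := by
  rw [MvPolynomial.eval_map, MvPolynomial.eval_map, dehom]
  have := MvPolynomial.eval₂Hom_bind₁ (Polynomial.evalRingHom t) s
    (Fin.cons 1 MvPolynomial.X : Fin (M + 2 + 1) → MvPolynomial (Fin (M + 2)) Qb[X]) H
  rw [MvPolynomial.coe_eval₂Hom] at this
  rw [this, MvPolynomial.coe_eval₂Hom]
  congr 1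
  funext i
  refine Fin.cases ?_ (fun j => ?_) i
  · simp
  · simp

lemma exists_point (M d : ℕ) (hd : 2 ≤ d) (V : Set (Qb × PSpace (M + 2)))
    (S : Set (MvPolynomial (Fin (M + 2 + 1)) Qb[X]))
    (hV : V = {p | ∀ H ∈ S, MvPolynomial.eval p.2.rep
      (MvPolynomial.map (Polynomial.evalRingHom p.1) H) = 0})
    (H : MvPolynomial (Fin (M + 2 + 1)) Qb[X]) (hH : H ∈ S) (e : ℕ) (hHe : H.IsHomogeneous e)
    (m : ℕ) (hm : ∀ i, (dehom H).degreeOf i < m + 1) (n k : ℕ) (hk : m ≤ k) (hkn : k ≤ n)
    (hne : MvPolynomial.map (Polynomial.evalRingHom (par d n)) (dehom H) ≠ 0) :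
    ∃ (v : Vec (M + 2)) (hv : v ≠ 0), v 0 = 1 ∧ v 2 ^ (d ^ m) = 2 ^ (d ^ (n - k + m)) ∧
      Projectivization.mk Qb v hv ∈ preim (theFamily M d hd) (thePoint M) (par d n)
        (Module.finrank ℚ (cycl (d ^ m)) * d ^ m) ∧
      (par d n, Projectivization.mk Qb v hv) ∉ V := by
  classical
  have hpar0 : par d n ≠ 0 := by rw [par_eq]; exact pow_ne_zero _ two_ne_zero
  obtain ⟨z, hz1, hz2⟩ := exists_back d hd (par d n) hpar0
  have hdm : 0 < d ^ m := pow_pos (by omega) m
  have : NeZero ((d ^ m : ℕ) : Qb) := ⟨Nat.cast_ne_zero.2 hdm.ne'⟩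
  obtain ⟨ζ0, hζ0⟩ := HasEnoughRootsOfUnity.exists_primitiveRoot Qb (d ^ m)
  set σ : Qb := 2 ^ (d ^ (n - k)) with hσ
  have hσ0 : σ ≠ 0 := by rw [hσ]; exact pow_ne_zero _ two_ne_zero
  -- the grid
  set G : Fin (M + 2) → Finset Qb := fun i =>
    if i = 0 then (Finset.range (m + 1)).image z
    else (nthRootsFinset (d ^ m) (1 : Qb)).image (fun ζ => ζ * σ) with hG
  have hcard : ∀ i, m + 1 ≤ (G i).card := by
    intro i
    simp only [hG]
    split_ifs with hi
    · rw [Finset.card_image_of_injective _ hz2, Finset.card_range]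
    · rw [Finset.card_image_of_injective _ (mul_left_injective₀ hσ0), hζ0.card_nthRootsFinset]
      exact Nat.lt_pow_self (by omega)
  obtain ⟨s, hsG, hs⟩ : ∃ s : Fin (M + 2) → Qb, (∀ i, s i ∈ G i) ∧
      MvPolynomial.eval s (MvPolynomial.map (Polynomial.evalRingHom (par d n)) (dehom H)) ≠ 0 := by
    by_contra hcon
    push Not at hcon
    refine hne (MvPolynomial.eq_zero_of_eval_zero_at_prod_finset _ G (fun i => ?_) hcon)
    refine lt_of_le_of_lt ?_ (lt_of_lt_of_le (hm i) (hcard i))
    rw [MvPolynomial.degreeOf_def, MvPolynomial.degreeOf_def]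
    exact Multiset.count_le_of_le _ MvPolynomial.degrees_map_le
  set v : Vec (M + 2) := Fin.cons 1 s with hv
  have hv0 : v 0 = 1 := by simp [hv]
  have hvne : v ≠ 0 := fun h => by
    have := congrFun h 0
    rw [hv0] at this
    exact one_ne_zero this
  have hv1 : v 1 = s 0 := by
    rw [hv]; exact Fin.cons_succ _ _ 0
  have hs0 := hsG 0
  simp only [hG, if_true, Finset.mem_image, Finset.mem_range] at hs0
  obtain ⟨j0, hj0, hj0'⟩ := hs0
  have hsi : ∀ i : Fin (M + 2), i ≠ 0 → ∃ ζ : Qb, ζ ^ (d ^ m) = 1 ∧ ζ * σ = s i := by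
    intro i hi
    have := hsG i
    simp only [hG, if_neg hi, Finset.mem_image] at this
    obtain ⟨ζ, h1, h2⟩ := this
    exact ⟨ζ, (mem_nthRootsFinset hdm _).1 h1, h2⟩
  have hvi : ∀ i : Fin (M + 2 + 1), i ≠ 0 → i ≠ 1 → ∃ ζ : Qb, ζ ^ (d ^ m) = 1 ∧ ζ * σ = v i := by
    intro i
    refine Fin.cases ?_ (fun j => ?_) i
    · intro h; exact absurd rfl h
    · intro _ h1
      have hj : j ≠ 0 := by
        rintro rfl
        exact h1 rfl
      obtain ⟨ζ, a, b⟩ := hsi j hj
      exact ⟨ζ, a, by rw [b, hv, Fin.cons_succ]⟩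
  refine ⟨v, hvne, hv0, ?_, ⟨?_, k, ?_⟩, ?_⟩
  · obtain ⟨ζ, h1, h2⟩ := hvi 2
      (by simp [Fin.ext_iff, Nat.mod_eq_of_lt (show 2 < M + 2 + 1 by omega)])
      (by simp [Fin.ext_iff, Nat.mod_eq_of_lt (show 2 < M + 2 + 1 by omega)])
    rw [← h2, mul_pow, h1, one_mul, hσ, ← pow_mul, ← pow_add]
  · -- degree
    have hfb : Module.finrank ℚ (IntermediateField.adjoin ℚ {s 0}) ≤ d ^ m := by
      apply finrank_back d hd (2 ^ (d ^ n)) (s 0) m
      change (gm d (par d n))^[m] (s 0) = par d n
      rw [← hj0', show m = (m - j0) + j0 by omega, Function.iterate_add_apply, hz1, gm_iter_fix]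
    have hfd : FiniteDimensional ℚ (IntermediateField.adjoin ℚ {s 0}) :=
      IntermediateField.adjoin.finiteDimensional (isInt _)
    refine (degPoint_le hvne (cycl (d ^ m) ⊔ IntermediateField.adjoin ℚ {s 0}) ?_).trans
      ((IntermediateField.finrank_sup_le _ _).trans (Nat.mul_le_mul le_rfl hfb))
    intro i
    by_cases h0 : i = 0
    · rw [h0, hv0]; exact one_mem _
    by_cases h1 : i = 1
    · rw [h1, hv1]
      exact (le_sup_right : _ ≤ cycl (d ^ m) ⊔ IntermediateField.adjoin ℚ {s 0})
        (IntermediateField.mem_adjoin_simple_self ℚ (s 0))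
    · obtain ⟨ζ, ha, hb⟩ := hvi i h0 h1
      rw [← hb]
      refine mul_mem ?_ ?_
      · apply (le_sup_left : cycl (d ^ m) ≤ cycl (d ^ m) ⊔ IntermediateField.adjoin ℚ {s 0})
        apply IntermediateField.subset_adjoin
        exact (mem_nthRootsFinset hdm _).2 ha
      · rw [hσ]
        exact pow_mem (ofNat_mem _ 2) _
  · -- the iterate
    obtain ⟨h1, h2⟩ := iterate_mk (theFamily M d hd) (par d n) k hvne
    rw [h2]
    unfold MarkedPoint.at
    congr 1
    rw [lift_iter M d hd _ _ hv0]
    funext i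
    by_cases hi1 : i = 1
    · rw [if_pos hi1, hv1, ← hj0', show k = (k - j0) + j0 by omega, Function.iterate_add_apply, hz1,
        gm_iter_fix, hi1]
      simp [thePoint]
    · rw [if_neg hi1]
      by_cases hi0 : i = 0
      · rw [hi0, hv0, one_pow]; simp [thePoint]
      · obtain ⟨ζ, ha, hb⟩ := hvi i hi0 hi1
        have e1 : ζ ^ (d ^ k) = 1 := by
          rw [show k = m + (k - m) by omega, pow_add, pow_mul, ha, one_pow]
        rw [← hb, mul_pow, e1, one_mul, hσ, ← pow_mul, ← pow_add,
          show n - k + k = n by omega, ← par_eq]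
        simp [thePoint, hi0]
  · -- not in `V`
    intro hmem
    rw [hV] at hmem
    have h1 := hmem H hH
    simp only at h1
    obtain ⟨a, ha⟩ := Projectivization.exists_smul_eq_mk_rep Qb v hvne
    rw [← ha, Units.smul_def, eval_smul_of_homogeneous (hHe.map _)] at h1
    rcases mul_eq_zero.1 h1 with h | h
    · exact pow_ne_zero _ a.ne_zero h
    · rw [eval_dehom] at hs
      exact hs h

lemma dehom_ne_zero {M : ℕ} (H : MvPolynomial (Fin (M + 2 + 1)) Qb[X]) (e : ℕ)
    (hHe : H.IsHomogeneous e) (t0 : Qb) (w : Vec (M + 2))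
    (h : MvPolynomial.eval w (MvPolynomial.map (Polynomial.evalRingHom t0) H) ≠ 0) :
    dehom H ≠ 0 := by
  intro h0
  set P := MvPolynomial.map (Polynomial.evalRingHom t0) H with hP
  have hP0 : P ≠ 0 := fun hh => h (by rw [hh, map_zero])
  have hP1 : P * MvPolynomial.X 0 ≠ 0 := mul_ne_zero hP0 (MvPolynomial.X_ne_zero _)
  obtain ⟨v, hv⟩ : ∃ v : Vec (M + 2), MvPolynomial.eval v (P * MvPolynomial.X 0) ≠ 0 := by
    by_contra hcon
    push Not at hcon
    exact hP1 (MvPolynomial.funext fun x => by rw [hcon x, map_zero])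
  rw [map_mul, MvPolynomial.eval_X] at hv
  have hv1 := left_ne_zero_of_mul hv
  have hv0 := right_ne_zero_of_mul hv
  have h2 := eval_smul_of_homogeneous (hHe.map (Polynomial.evalRingHom t0)) (v 0)⁻¹ v
  have h3 : ((v 0)⁻¹ • v : Vec (M + 2)) = Fin.cons 1 (fun i : Fin (M + 2) => (v 0)⁻¹ * v i.succ) := by
    funext i
    refine Fin.cases ?_ (fun j => ?_) i
    · simp [hv0]
    · simp
  rw [h3, ← eval_dehom, h0, map_zero, map_zero] at h2
  exact mul_ne_zero (pow_ne_zero _ (inv_ne_zero hv0)) hv1 h2.symm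

lemma not_star (M d : ℕ) (hd : 2 ≤ d) : ¬ Star (theFamily M d hd) (thePoint M) := by
  classical
  rintro ⟨V, ⟨S, hS, hV⟩, hVne, -, hbd⟩
  obtain ⟨⟨t0, x0⟩, hx0⟩ := (Set.ne_univ_iff_exists_notMem V).1 hVne
  rw [hV] at hx0
  simp only [Set.mem_ofPred_eq, not_forall] at hx0
  obtain ⟨H, hHS, hH0⟩ := hx0
  obtain ⟨e, hHe⟩ := hS H hHS
  have hQ := dehom_ne_zero H e hHe t0 x0.rep hH0
  obtain ⟨μ, hμ⟩ := MvPolynomial.ne_zero_iff.1 hQ
  -- for large `n` the specialisation of `dehom H` at `2^(d^n)` does not vanish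
  have hfin : {n : ℕ | (MvPolynomial.coeff μ (dehom H)).IsRoot (par d n)}.Finite :=
    (finite_setOfPred_isRoot hμ).preimage (par_inj hd).injOn
  obtain ⟨n0, hn0⟩ := hfin.bddAbove
  set m : ℕ := Finset.univ.sup (fun i => (dehom H).degreeOf i) with hm
  have hmi : ∀ i, (dehom H).degreeOf i < m + 1 := fun i =>
    Nat.lt_succ_of_le (Finset.le_sup (f := fun i => (dehom H).degreeOf i) (Finset.mem_univ i))
  have hfr : 0 < Module.finrank ℚ (cycl (d ^ m)) := Module.finrank_pos
  have hD : 1 ≤ Module.finrank ℚ (cycl (d ^ m)) * d ^ m :=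
    Nat.mul_pos hfr (pow_pos (by omega) m)
  obtain ⟨C, hC⟩ := hbd _ hD
  set n : ℕ := n0 + 1 + m + C with hn
  have hne : MvPolynomial.map (Polynomial.evalRingHom (par d n)) (dehom H) ≠ 0 := by
    intro h
    have h1 := congrArg (MvPolynomial.coeff μ) h
    rw [MvPolynomial.coeff_map, MvPolynomial.coeff_zero] at h1
    have h2 : n ≤ n0 := hn0 (show n ∈ {n : ℕ | _} from h1)
    omega
  have hpt : ∀ j : Fin (C + 1), ∃ (v : Vec (M + 2)) (hv : v ≠ 0), v 0 = 1 ∧
      v 2 ^ (d ^ m) = 2 ^ (d ^ (n - (m + j) + m)) ∧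
      Projectivization.mk Qb v hv ∈ preim (theFamily M d hd) (thePoint M) (par d n)
        (Module.finrank ℚ (cycl (d ^ m)) * d ^ m) ∧
      (par d n, Projectivization.mk Qb v hv) ∉ V := fun j =>
    exists_point M d hd V S hV H hHS e hHe m hmi n (m + j) (by omega) (by omega) hne
  choose v hv h0 h2 hp hnV using hpt
  have hinj : Function.Injective fun j : Fin (C + 1) => Projectivization.mk Qb (v j) (hv j) := by
    intro i j hij
    rw [Projectivization.mk_eq_mk_iff'] at hij
    obtain ⟨a, ha⟩ := hij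
    have ha0 := congrFun ha 0
    rw [Pi.smul_apply, h0, h0, smul_eq_mul, mul_one] at ha0
    rw [ha0, one_smul] at ha
    have h3 := h2 i
    rw [← ha, h2 j] at h3
    have h4 := Nat.pow_right_injective hd (two_pow_inj h3)
    apply Fin.ext
    omega
  have hle := hC (par d n) ((degParam_par d n).le.trans hD)
  have hsub : Set.range (fun j : Fin (C + 1) => Projectivization.mk Qb (v j) (hv j)) ⊆
      {x | x ∈ preim (theFamily M d hd) (thePoint M) (par d n)
        (Module.finrank ℚ (cycl (d ^ m)) * d ^ m) ∧ (par d n, x) ∉ V} := by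
    rintro _ ⟨j, rfl⟩
    exact ⟨hp j, hnV j⟩
  have h5 := (Set.encard_le_encard hsub).trans hle
  rw [← Set.image_univ, hinj.encard_image, Set.encard_univ, ENat.card_eq_coe_fintype_card,
    Fintype.card_fin] at h5
  have h6 : C + 1 ≤ C := by exact_mod_cast h5
  omega

/-- **Disproof.** For every `N ≥ 2` and every `d ≥ 2` there are a maximal varying family `f` over
the affine line of degree `d` endomorphisms of projective `N`-space and a marked point `a`, both
defined over `ℚ`, that do not satisfy `(∗)`. -/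
theorem result (N d : ℕ) (hN : 2 ≤ N) (hd : 2 ≤ d) :
    ∃ (f : Family N d) (a : MarkedPoint N), f.MaximalVarying ∧ ¬ Star f a := by
  obtain ⟨M, rfl⟩ : ∃ M, N = M + 2 := ⟨N - 2, by omega⟩
  exact ⟨theFamily M d hd, thePoint M, maximalVarying M d hd, not_star M d hd⟩

end Pool.Agent.Results.MP_2d1f13_nt.NoUniformPreimages
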